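import Pool.Agent.U174.AK.Stm

/-!
# Project AK, package UCSAT (helper438): countable saturation of ultrapowers of valued fields
-/

set_option autoImplicit false

namespace Pool.Agent.U438.AK.UCSAT

open Filter Pool.Agent.U174.AK

section
variable {K K' : Type} [Field K] [Field K'] {O : ValuationSubring K} {O' : ValuationSubring K'}
  {π : (ℕ → K) →+* K'}

theorem eq_of_ev (h : Ult O O' π) (x y : ℕ → K) :
    π x = π y ↔ ∀ᶠ j in (hyperfilter ℕ : Filter ℕ), x j = y j := by
  rw [← sub_eq_zero, ← map_sub, h.zero]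
  simp only [Pi.sub_apply, sub_eq_zero]

theorem val_le (h : Ult O O' π) (u w : ℕ → K) :
    O'.valuation (π u) ≤ O'.valuation (π w) ↔
      ∀ᶠ j in (hyperfilter ℕ : Filter ℕ), O.valuation (u j) ≤ O.valuation (w j) := by
  by_cases hw : π w = 0
  · have hw' := (h.zero w).mp hw
    have h1 : O'.valuation (π u) ≤ O'.valuation (π w) ↔ π u = 0 := by
      rw [hw, map_zero, le_zero_iff, Valuation.zero_iff]
    rw [h1, h.zero]
    constructor
    · intro hu
      filter_upwards [hu, hw'] with j h2 h3
      rw [h2, h3]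
    · intro hu
      filter_upwards [hu, hw'] with j h2 h3
      rw [h3, map_zero, le_zero_iff, Valuation.zero_iff] at h2
      exact h2
  · have hw' : ∀ᶠ j in (hyperfilter ℕ : Filter ℕ), w j ≠ 0 := by
      have := mt (h.zero w).mpr hw
      exact Ultrafilter.eventually_not.mpr this
    have hq : π u = π (fun j => u j / w j) * π w := by
      rw [← map_mul, eq_of_ev h]
      filter_upwards [hw'] with j hj
      change u j = u j / w j * w j
      rw [div_mul_cancel₀ _ hj]
    have h1 : O'.valuation (π u) ≤ O'.valuation (π w) ↔ O'.valuation (π (fun j => u j / w j)) ≤ 1 := by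
      rw [hq, map_mul]
      have hpos : 0 < O'.valuation (π w) := zero_lt_iff.mpr ((Valuation.ne_zero_iff _).mpr hw)
      exact mul_le_iff_le_one_left hpos
    rw [h1, ValuationSubring.valuation_le_one_iff, h.mem]
    constructor
    · intro hu
      filter_upwards [hu, hw'] with j h2 h3
      rw [← ValuationSubring.valuation_le_one_iff, map_div₀,
        div_le_one₀ (zero_lt_iff.mpr ((Valuation.ne_zero_iff _).mpr h3))] at h2
      exact h2
    · intro hu
      filter_upwards [hu, hw'] with j h2 h3
      rw [← ValuationSubring.valuation_le_one_iff, map_div₀,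
        div_le_one₀ (zero_lt_iff.mpr ((Valuation.ne_zero_iff _).mpr h3))]
      exact h2

theorem val_eq (h : Ult O O' π) (u w : ℕ → K) :
    O'.valuation (π u) = O'.valuation (π w) ↔
      ∀ᶠ j in (hyperfilter ℕ : Filter ℕ), O.valuation (u j) = O.valuation (w j) := by
  rw [le_antisymm_iff, val_le h, val_le h, ← Filter.eventually_and]
  simp only [le_antisymm_iff]

theorem eval_hom {R S : Type} [CommRing R] [CommRing S] (φ : R →+* S) (x : ℕ → R) (Q : MvPolynomial ℕ R) :
    φ (MvPolynomial.eval x Q) = MvPolynomial.eval (fun k => φ (x k)) (MvPolynomial.map φ Q) := by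
  rw [MvPolynomial.eval_map]
  have := MvPolynomial.eval₂_comp_left φ (RingHom.id R) x Q
  rw [RingHom.comp_id] at this
  exact this

end

/-- countable saturation of the ultrapower -/
theorem t_UCSAT : S_UCSAT := by
  intro K K' _ _ O O' π h Q γ hfin
  classical
  -- lift the polynomials
  have hQ : ∀ i, ∃ q : MvPolynomial ℕ (ℕ → K), MvPolynomial.map π q = Q i := fun i =>
    MvPolynomial.map_surjective π h.surj (Q i)
  choose q hq using hQ
  have hc : ∀ i, ∃ c : ℕ → K, O'.valuation (π c) = γ i := by
    intro i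
    obtain ⟨a, ha⟩ := O'.valuation_surjective (γ i)
    obtain ⟨c, hc⟩ := h.surj a
    exact ⟨c, by rw [hc, ha]⟩
  choose c hc using hc
  -- the condition number `i` at the coordinate `j`
  let P : ℕ → (ℕ → K) → ℕ → Prop := fun i z j =>
    O.valuation (MvPolynomial.eval z (MvPolynomial.map (Pi.evalRingHom (fun _ : ℕ => K) j) (q i))) =
      O.valuation (c i j)
  have key : ∀ (x : ℕ → ℕ → K) (i : ℕ),
      O'.valuation (MvPolynomial.eval (fun k => π (x k)) (Q i)) = γ i ↔
        ∀ᶠ j in (hyperfilter ℕ : Filter ℕ), P i (fun k => x k j) j := by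
    intro x i
    rw [← hq i, ← hc i, ← eval_hom π x (q i), val_eq h]
    have : ∀ j, (MvPolynomial.eval x (q i)) j =
        MvPolynomial.eval (fun k => x k j) (MvPolynomial.map (Pi.evalRingHom (fun _ : ℕ => K) j) (q i)) :=
      fun j => eval_hom (Pi.evalRingHom (fun _ : ℕ => K) j) x (q i)
    simp only [this, P]
  have hev : ∀ m : ℕ, ∀ᶠ j in (hyperfilter ℕ : Filter ℕ), ∃ z : ℕ → K, ∀ i < m, P i z j := by
    intro m
    obtain ⟨x, hx⟩ := hfin m
    choose y hy using fun k => h.surj (x k)
    have hall : ∀ᶠ j in (hyperfilter ℕ : Filter ℕ), ∀ i ∈ Finset.range m, P i (fun k => y k j) j := by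
      rw [Filter.eventually_all_finset]
      intro i hi
      rw [← key y i]
      have : (fun k => π (y k)) = x := funext hy
      rw [this]
      exact hx i (Finset.mem_range.mp hi)
    filter_upwards [hall] with j hj
    exact ⟨fun k => y k j, fun i hi => hj i (Finset.mem_range.mpr hi)⟩
  let N : ℕ → ℕ := fun j => Nat.findGreatest (fun m => ∃ z : ℕ → K, ∀ i < m, P i z j) j
  have hN : ∀ j, ∃ z : ℕ → K, ∀ i < N j, P i z j := by
    intro j
    exact Nat.findGreatest_spec (P := fun m => ∃ z : ℕ → K, ∀ i < m, P i z j) (Nat.zero_le j)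
      ⟨fun _ => 0, fun i hi => absurd hi (Nat.not_lt_zero i)⟩
  choose z hz using hN
  refine ⟨fun k => π (fun j => z j k), fun i => ?_⟩
  rw [key (fun k j => z j k) i]
  have hge : ∀ᶠ j in (hyperfilter ℕ : Filter ℕ), i + 1 ≤ j :=
    Nat.hyperfilter_le_atTop (Filter.eventually_ge_atTop (i + 1))
  filter_upwards [hev (i + 1), hge] with j h1 h2
  have h3 : i + 1 ≤ N j := Nat.le_findGreatest h2 h1
  exact hz j i h3

end Pool.Agent.U438.AK.UCSAT
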